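import Mathlib

/-!
Definitions for MP_d97def_al: measures, amenability, the density is12, packing and covering
numbers, and the properties (a)-(e).
-/

namespace Pool.Agent.Helper77.Dens

universe u

/-- A measure on `G`: a finitely additive probability measure defined on all subsets of `G`. -/
structure Measure (G : Type u) where
  /-- the value on a subset -/
  val : Set G → ℝ
  nonneg : ∀ A, 0 ≤ val A
  univ : val Set.univ = 1
  union : ∀ A B, Disjoint A B → val (A ∪ B) = val A + val B

/-- `G` is amenable: it admits a measure that is invariant under all left translations. -/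
def Amenable (G : Type u) [Group G] : Prop :=
  ∃ μ : Measure G, ∀ (g : G) (A : Set G), μ.val ((fun x => g * x) '' A) = μ.val A

/-- `P_ω(G)`: finitely supported probability measures on `G`. -/
structure FinProb (G : Type u) where
  /-- the weights -/
  weight : G →₀ ℝ
  nonneg : ∀ g, 0 ≤ weight g
  total : ∑ g ∈ weight.support, weight g = 1

open Classical in
/-- The measure `μ(A)` of a set `A` for a finitely supported probability measure `μ`. -/
noncomputable def FinProb.mass {G : Type u} (μ : FinProb G) (A : Set G) : ℝ :=
  ∑ g ∈ μ.weight.support with g ∈ A, μ.weight g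

/-- `is₁₂(A) = inf_{μ ∈ P_ω(G)} sup_{y ∈ G} μ(Ay)`. -/
noncomputable def is12 {G : Type u} [Group G] (A : Set G) : ℝ :=
  ⨅ μ : FinProb G, ⨆ y : G, μ.mass ((fun x => x * y) '' A)

/-- `pack(A)`: the supremum of `|E|` over all `E ⊆ G` such that the translates `xA`, `x ∈ E`,
are pairwise disjoint (all infinite values are identified with `⊤`). -/
noncomputable def pack {G : Type u} [Group G] (A : Set G) : ℕ∞ :=
  ⨆ E : {E : Set G // ∀ x ∈ E, ∀ y ∈ E, x ≠ y →
    Disjoint ((fun g => x * g) '' A) ((fun g => y * g) '' A)}, (E : Set G).encard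

/-- `cov(B)`: the least `|F|` with `G = FB` (all infinite values are identified with `⊤`). -/
noncomputable def cov {G : Type u} [Group G] (B : Set G) : ℕ∞ :=
  ⨅ F : {F : Set G // ∀ g : G, ∃ f ∈ F, ∃ b ∈ B, g = f * b}, (F : Set G).encard

/-- The difference set `A A⁻¹`. -/
def diffSet {G : Type u} [Group G] (A : Set G) : Set G :=
  {g | ∃ a ∈ A, ∃ b ∈ A, g = a * b⁻¹}

/-- A partition of `G` into `n` pairwise disjoint cells. -/
def IsPartition {G : Type u} {n : ℕ} (A : Fin n → Set G) : Prop :=
  (∀ i j, i ≠ j → Disjoint (A i) (A j)) ∧ ∀ g, ∃ i, g ∈ A i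

/-- Every partition of `G` into `n ≥ 1` cells has a cell satisfying the condition `C n`. -/
def HasGoodCells (G : Type u) (C : ℕ → Set G → Prop) : Prop :=
  ∀ n : ℕ, 1 ≤ n → ∀ A : Fin n → Set G, IsPartition A → ∃ i, C n (A i)

/-- Property (a). -/
def PropA (G : Type u) [Group G] : Prop := HasGoodCells G fun n A => (1 : ℝ) / n ≤ is12 A

/-- Property (b). -/
def PropB (G : Type u) [Group G] : Prop := HasGoodCells G fun n A => pack A ≤ n

/-- Property (c). -/
def PropC (G : Type u) [Group G] : Prop := HasGoodCells G fun n A => cov (diffSet A) ≤ n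

/-- Property (d). -/
def PropD (G : Type u) [Group G] : Prop := HasGoodCells G fun _ A => 0 < is12 A

/-- Property (e). -/
def PropE (G : Type u) [Group G] : Prop := HasGoodCells G fun _ A => pack A < ⊤

end Pool.Agent.Helper77.Dens
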