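import Mathlib
import Pool.Agent.Helper77.Dens.Defs

/-!
Uniform expansion implies non-amenability (Hall's theorem and a paradoxical decomposition).
-/

namespace Pool.Agent.Helper77.Dens

universe u

variable {G : Type u}

lemma Measure.empty (μ : Measure G) : μ.val ∅ = 0 := by
  have h := μ.union ∅ ∅ (Set.disjoint_empty _)
  rw [Set.union_empty] at h
  linarith

lemma Measure.biUnion (μ : Measure G) {ι : Type*} (s : Finset ι) (C : ι → Set G)
    (h : ∀ i ∈ s, ∀ j ∈ s, i ≠ j → Disjoint (C i) (C j)) :
    μ.val (⋃ i ∈ s, C i) = ∑ i ∈ s, μ.val (C i) := by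
  classical
  induction s using Finset.induction_on with
  | empty => simp [μ.empty]
  | insert a s ha ih =>
    rw [Finset.set_biUnion_insert, Finset.sum_insert ha, μ.union, ih]
    · intro i hi j hj
      exact h i (Finset.mem_insert_of_mem hi) j (Finset.mem_insert_of_mem hj)
    · rw [Set.disjoint_iUnion₂_right]
      intro i hi
      apply h a (Finset.mem_insert_self _ _) i (Finset.mem_insert_of_mem hi)
      rintro rfl
      exact ha hi

lemma Measure.mono (μ : Measure G) {A B : Set G} (h : A ⊆ B) : μ.val A ≤ μ.val B := by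
  have h1 := μ.union A (B \ A) Set.disjoint_sdiff_right
  rw [Set.union_sdiff_cancel h] at h1
  rw [h1]
  linarith [μ.nonneg (B \ A)]

variable [Group G]

open Classical in
/-- If all finite sets at least double under multiplication by a fixed finite set, the group is
not amenable. -/
theorem not_amenable_of_doubling (E : Finset G)
    (hE : ∀ W : Finset G, 2 * W.card ≤ (Finset.image₂ (fun a b => a * b) E W).card) :
    ¬ Amenable G := by
  rintro ⟨μ, hμ⟩
  -- Hall's theorem
  let t : G × Bool → Finset G := fun p => E.image fun s => s * p.1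
  have hall : ∀ J : Finset (G × Bool), J.card ≤ (J.biUnion t).card := by
    intro J
    have h1 : J ⊆ (J.image Prod.fst) ×ˢ (Finset.univ : Finset Bool) := by
      intro p hp
      simp only [Finset.mem_product, Finset.mem_image, Finset.mem_univ, and_true]
      exact ⟨p, hp, rfl⟩
    have h2 := Finset.card_le_card h1
    rw [Finset.card_product, Finset.card_univ, Fintype.card_bool] at h2
    have h3 := hE (J.image Prod.fst)
    have h4 : Finset.image₂ (fun a b => a * b) E (J.image Prod.fst) ⊆ J.biUnion t := by
      intro y hy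
      obtain ⟨s, hs, g, hg, rfl⟩ := Finset.mem_image₂.1 hy
      obtain ⟨p, hp, rfl⟩ := Finset.mem_image.1 hg
      exact Finset.mem_biUnion.2 ⟨p, hp, Finset.mem_image.2 ⟨s, hs, rfl⟩⟩
    have h5 := Finset.card_le_card h4
    omega
  obtain ⟨f, hf, hft⟩ := (Finset.all_card_le_biUnion_card_iff_exists_injective t).1 hall
  -- the pieces
  let C : Bool × G → Set G := fun q => {g | f (g, q.1) = q.2 * g}
  have hC : ∀ b, ∑ s ∈ E, μ.val (C (b, s)) = 1 := by
    intro b
    rw [← μ.biUnion E (fun s => C (b, s)), ← μ.univ]
    · congr 1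
      rw [Set.eq_univ_iff_forall]
      intro g
      obtain ⟨s, hs, hsg⟩ := Finset.mem_image.1 (hft (g, b))
      exact Set.mem_iUnion₂.2 ⟨s, hs, hsg.symm⟩
    · intro s _ s' _ hss'
      rw [Set.disjoint_left]
      intro g hg hg'
      apply hss'
      have : s * g = s' * g := hg.symm.trans hg'
      exact mul_right_cancel this
  let D : Bool × G → Set G := fun q => (fun x => q.2 * x) '' C q
  have hD : ∑ q ∈ (Finset.univ : Finset Bool) ×ˢ E, μ.val (D q) = 2 := by
    have h1 : ∀ q, μ.val (D q) = μ.val (C q) := fun q => hμ q.2 (C q)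
    simp only [h1]
    rw [Finset.sum_product]
    simp only [hC]
    simp
  have hD' : ∑ q ∈ (Finset.univ : Finset Bool) ×ˢ E, μ.val (D q) ≤ 1 := by
    rw [← μ.biUnion, ← μ.univ]
    · exact μ.mono (Set.subset_univ _)
    · intro q _ q' _ hqq'
      rw [Set.disjoint_left]
      rintro y ⟨g, hg, rfl⟩ ⟨g', hg', hy⟩
      apply hqq'
      have h1 : f (g, q.1) = f (g', q'.1) := by
        rw [show f (g, q.1) = q.2 * g from hg, show f (g', q'.1) = q'.2 * g' from hg']
        exact hy.symm
      have h2 := hf h1
      have h3 : g = g' := congrArg Prod.fst h2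
      have h4 : q.1 = q'.1 := congrArg Prod.snd h2
      subst h3
      have h5 : q.2 = q'.2 := (mul_right_cancel hy).symm
      exact Prod.ext h4 h5
  linarith

end Pool.Agent.Helper77.Dens
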