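import Mathlib
import Pool.Agent.Helper77.Dens.Defs

/-!
Every non-amenable group is the union of two disjoint sets with `is12 = 0`.
-/

namespace Pool.Agent.Helper77.Dens

universe u

variable {G : Type u}

section basics

lemma FinProb.mass_nonneg (μ : FinProb G) (A : Set G) : 0 ≤ μ.mass A :=
  Finset.sum_nonneg fun g _ => μ.nonneg g

lemma FinProb.mass_mono (μ : FinProb G) {A B : Set G} (h : A ⊆ B) : μ.mass A ≤ μ.mass B := by
  classical
  unfold FinProb.mass
  apply Finset.sum_le_sum_of_subset_of_nonneg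
  · intro g hg
    simp only [Finset.mem_filter] at hg ⊢
    exact ⟨hg.1, h hg.2⟩
  · intro g _ _
    exact μ.nonneg g

lemma FinProb.mass_le_one (μ : FinProb G) (A : Set G) : μ.mass A ≤ 1 := by
  classical
  rw [← μ.total]
  unfold FinProb.mass
  apply Finset.sum_le_sum_of_subset_of_nonneg
  · exact Finset.filter_subset _ _
  · intro g _ _
    exact μ.nonneg g

/-- The Dirac measure. -/
noncomputable def FinProb.dirac (g : G) : FinProb G where
  weight := Finsupp.single g 1
  nonneg := by
    intro h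
    classical
    rw [Finsupp.single_apply]
    split_ifs <;> norm_num
  total := by
    rw [Finsupp.support_single g one_ne_zero]
    simp

instance [Nonempty G] : Nonempty (FinProb G) := ⟨FinProb.dirac (Classical.arbitrary G)⟩

variable [Group G]

lemma bddAbove_mass (μ : FinProb G) (A : Set G) :
    BddAbove (Set.range fun y : G => μ.mass ((fun x => x * y) '' A)) :=
  ⟨1, by rintro _ ⟨y, rfl⟩; exact μ.mass_le_one _⟩

lemma is12_nonneg (A : Set G) : 0 ≤ is12 A := by
  apply Real.iInf_nonneg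
  intro μ
  apply Real.iSup_nonneg
  intro y
  exact μ.mass_nonneg _

lemma is12_le_of {A : Set G} {ε : ℝ} (μ : FinProb G)
    (h : ∀ y : G, μ.mass ((fun x => x * y) '' A) ≤ ε) : is12 A ≤ ε := by
  refine (ciInf_le ⟨0, ?_⟩ μ).trans (ciSup_le h)
  rintro _ ⟨ν, rfl⟩
  exact Real.iSup_nonneg fun y => ν.mass_nonneg _

lemma is12_eq_zero {A : Set G}
    (h : ∀ ε : ℝ, 0 < ε → ∃ μ : FinProb G, ∀ y : G, μ.mass ((fun x => x * y) '' A) ≤ ε) :
    is12 A = 0 := by
  apply le_antisymm _ (is12_nonneg A)
  apply le_of_forall_pos_le_add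
  intro ε hε
  obtain ⟨μ, hμ⟩ := h ε hε
  simpa using is12_le_of μ hμ

end basics

section minimal

variable [Group G]

/-- The left translate of a set function: `(sh g m)(S) = m(g⁻¹ S)`. -/
def sh (g : G) (m : Set G → ℝ) : Set G → ℝ := fun S => m ((fun x => g * x) ⁻¹' S)

lemma sh_sh (g h : G) (m : Set G → ℝ) : sh g (sh h m) = sh (g * h) m := by
  funext S
  simp only [sh, Set.preimage_preimage]
  congr 1
  ext x
  simp [mul_assoc]

lemma sh_one (m : Set G → ℝ) : sh (1 : G) m = m := by
  funext S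
  simp [sh]

lemma continuous_sh (g : G) : Continuous (sh g : (Set G → ℝ) → (Set G → ℝ)) :=
  continuous_pi fun _ => continuous_apply _

/-- The set of finitely additive probability measures. -/
def MM (G : Type u) : Set (Set G → ℝ) :=
  {m | (∀ A, 0 ≤ m A) ∧ m Set.univ = 1 ∧ ∀ A B, Disjoint A B → m (A ∪ B) = m A + m B}

lemma MM_convex : Convex ℝ (MM G) := by
  intro m hm m' hm' a b ha hb hab
  refine ⟨fun A => ?_, ?_, fun A B hAB => ?_⟩
  · simp only [Pi.add_apply, Pi.smul_apply, smul_eq_mul]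
    exact add_nonneg (mul_nonneg ha (hm.1 A)) (mul_nonneg hb (hm'.1 A))
  · simp only [Pi.add_apply, Pi.smul_apply, smul_eq_mul, hm.2.1, hm'.2.1, mul_one, hab]
  · simp only [Pi.add_apply, Pi.smul_apply, smul_eq_mul, hm.2.2 A B hAB, hm'.2.2 A B hAB]
    ring

lemma MM_isClosed : IsClosed (MM G) := by
  have h1 : MM G = (⋂ A : Set G, {m : Set G → ℝ | 0 ≤ m A}) ∩ {m : Set G → ℝ | m Set.univ = 1} ∩
      (⋂ A : Set G, ⋂ B : Set G, ⋂ _ : Disjoint A B, {m : Set G → ℝ | m (A ∪ B) = m A + m B}) := by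
    ext m
    simp only [MM, Set.mem_ofPred_eq, Set.mem_inter_iff, Set.mem_iInter]
    tauto
  rw [h1]
  refine IsClosed.inter (IsClosed.inter ?_ ?_) ?_
  · exact isClosed_iInter fun A => isClosed_le continuous_const (continuous_apply A)
  · exact isClosed_eq (continuous_apply _) continuous_const
  · refine isClosed_iInter fun A => isClosed_iInter fun B => isClosed_iInter fun _ => ?_
    exact isClosed_eq (continuous_apply (A ∪ B)) (by fun_prop)

lemma MM_mono {m : Set G → ℝ} (hm : m ∈ MM G) {A B : Set G} (h : A ⊆ B) : m A ≤ m B := by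
  have : m B = m A + m (B \ A) := by
    rw [← hm.2.2 A (B \ A) Set.disjoint_sdiff_right, Set.union_sdiff_cancel h]
  rw [this]
  linarith [hm.1 (B \ A)]

lemma MM_isCompact : IsCompact (MM G) := by
  have h : IsCompact (Set.pi Set.univ fun _ : Set G => Set.Icc (0 : ℝ) 1) :=
    isCompact_univ_pi fun _ => isCompact_Icc
  refine h.of_isClosed_subset MM_isClosed ?_
  intro m hm A _
  exact ⟨hm.1 A, by rw [← hm.2.1]; exact MM_mono hm (Set.subset_univ A)⟩

lemma MM_compl {m : Set G → ℝ} (hm : m ∈ MM G) (A : Set G) : m Aᶜ = 1 - m A := by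
  have := hm.2.2 A Aᶜ disjoint_compl_right
  rw [Set.union_compl_self, hm.2.1] at this
  linarith

lemma MM_sh {m : Set G → ℝ} (hm : m ∈ MM G) (g : G) : sh g m ∈ MM G := by
  refine ⟨fun A => hm.1 _, ?_, fun A B hAB => ?_⟩
  · simp only [sh, Set.preimage_univ]
    exact hm.2.1
  · simp only [sh, Set.preimage_union]
    exact hm.2.2 _ _ (hAB.preimage _)

open Classical in
lemma MM_nonempty : (MM G).Nonempty := by
  refine ⟨fun A => if (1 : G) ∈ A then 1 else 0, fun A => ?_, ?_, fun A B hAB => ?_⟩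
  · positivity
  · simp
  · by_cases hA : (1 : G) ∈ A
    · have : (1 : G) ∉ B := Set.disjoint_left.1 hAB hA
      simp [hA, this]
    · simp [hA]

/-- The family of nonempty closed convex invariant subsets of `MM G`. -/
def Good (K : Set (Set G → ℝ)) : Prop :=
  K ⊆ MM G ∧ K.Nonempty ∧ IsClosed K ∧ Convex ℝ K ∧ ∀ g, ∀ m ∈ K, sh g m ∈ K

lemma exists_minimal_good : ∃ K : Set (Set G → ℝ), Good K ∧ ∀ K', Good K' → K' ⊆ K → K' = K := by
  have hz := zorn_superset_nonempty {K : Set (Set G → ℝ) | Good K} ?_ (MM G)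
    ⟨subset_rfl, MM_nonempty, MM_isClosed, MM_convex, fun g m hm => MM_sh hm g⟩
  · obtain ⟨K, hK, hmin⟩ := hz
    refine ⟨K, hmin.prop, fun K' hK' hsub => ?_⟩
    exact le_antisymm hsub (hmin.le_of_le hK' hsub)
  · intro c hc hchain hne
    refine ⟨⋂₀ c, ⟨?_, ?_, ?_, ?_, ?_⟩, fun s hs => Set.sInter_subset_of_mem hs⟩
    · obtain ⟨K, hK⟩ := hne
      exact (Set.sInter_subset_of_mem hK).trans (hc hK).1
    · have : Nonempty c := hne.to_subtype
      rw [Set.sInter_eq_iInter]
      refine IsCompact.nonempty_iInter_of_directed_nonempty_isCompact_isClosed _ ?_ ?_ ?_ ?_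
      · intro K K'
        rcases hchain.total K.2 K'.2 with h | h
        · exact ⟨K, subset_rfl, h⟩
        · exact ⟨K', h, subset_rfl⟩
      · intro K
        exact (hc K.2).2.1
      · intro K
        exact MM_isCompact.of_isClosed_subset (hc K.2).2.2.1 (hc K.2).1
      · intro K
        exact (hc K.2).2.2.1
    · exact isClosed_sInter fun K hK => (hc hK).2.2.1
    · exact convex_sInter fun K hK => (hc hK).2.2.2.1
    · intro g m hm K hK
      exact (hc hK).2.2.2.2 g m (hm K hK)

variable {K : Set (Set G → ℝ)}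

/-- In a minimal set, the values at `S` along any orbit approach the minimum over the set. -/
lemma exists_shift_lt (hK : Good K) (hmin : ∀ K', Good K' → K' ⊆ K → K' = K)
    {S : Set G} {m₀ : Set G → ℝ} (hm₀ : m₀ ∈ K) {c : ℝ} (hc : m₀ S < c)
    {m : Set G → ℝ} (hm : m ∈ K) : ∃ g : G, sh g m S < c := by
  by_contra hcon
  push Not at hcon
  set K' : Set (Set G → ℝ) := {x ∈ K | ∀ g : G, c ≤ sh g x S} with hK'
  have hgood : Good K' := by
    refine ⟨fun x hx => hK.1 hx.1, ⟨m, hm, hcon⟩, ?_, ?_, ?_⟩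
    · have : K' = K ∩ ⋂ g : G, {x | c ≤ sh g x S} := by
        ext x
        simp [hK']
      rw [this]
      refine hK.2.2.1.inter (isClosed_iInter fun g => ?_)
      exact isClosed_le continuous_const ((continuous_apply S).comp (continuous_sh g))
    · intro x hx y hy a b ha hb hab
      refine ⟨hK.2.2.2.1 hx.1 hy.1 ha hb hab, fun g => ?_⟩
      have h1 : sh g (a • x + b • y) S = a * sh g x S + b * sh g y S := by
        simp [sh]
      rw [h1]
      calc c = a * c + b * c := by rw [← add_mul, hab, one_mul]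
        _ ≤ _ := add_le_add (mul_le_mul_of_nonneg_left (hx.2 g) ha)
          (mul_le_mul_of_nonneg_left (hy.2 g) hb)
    · intro g x hx
      refine ⟨hK.2.2.2.2 g x hx.1, fun h => ?_⟩
      rw [sh_sh]
      exact hx.2 _
  have heq := hmin K' hgood fun x hx => hx.1
  have : m₀ ∈ K' := by rw [heq]; exact hm₀
  have h2 := this.2 1
  rw [sh_one] at h2
  linarith

/-- Finitely many translates work uniformly, in average. -/
lemma exists_finProb (hK : Good K) (hmin : ∀ K', Good K' → K' ⊆ K → K' = K)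
    {S : Set G} {m₀ : Set G → ℝ} (hm₀ : m₀ ∈ K) {c : ℝ} (hc : m₀ S < c) :
    ∃ μ : FinProb G, ∀ m ∈ K, ∑ g ∈ μ.weight.support, μ.weight g * sh g m S < c := by
  classical
  have hKc : IsCompact K := MM_isCompact.of_isClosed_subset hK.2.2.1 hK.1
  obtain ⟨c', hc'1, hc'2⟩ := exists_between hc
  obtain ⟨t, ht⟩ := hKc.elim_finite_subcover (fun g : G => {m : Set G → ℝ | sh g m S < c'})
    (fun g => isOpen_lt ((continuous_apply S).comp (continuous_sh g)) continuous_const)
    (fun m hm => by
      obtain ⟨g, hg⟩ := exists_shift_lt hK hmin hm₀ hc'1 hm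
      exact Set.mem_iUnion.2 ⟨g, hg⟩)
  -- the image in a finite-dimensional space
  let T : (Set G → ℝ) → (t → ℝ) := fun m g => sh (g : G) m S
  have hTc : Continuous T := continuous_pi fun g => (continuous_apply S).comp (continuous_sh _)
  have hconv : Convex ℝ (T '' K) := by
    rintro _ ⟨x, hx, rfl⟩ _ ⟨y, hy, rfl⟩ a b ha hb hab
    refine ⟨a • x + b • y, hK.2.2.2.1 hx hy ha hb hab, ?_⟩
    funext g
    simp [T, sh]
  have hcomp : IsCompact (T '' K) := hKc.image hTc
  let D : Set (t → ℝ) := {y | ∀ g, c' ≤ y g}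
  have hDc : IsClosed D := by
    have : D = ⋂ g, {y | c' ≤ y g} := by ext y; simp [D]
    rw [this]
    exact isClosed_iInter fun g => isClosed_le continuous_const (continuous_apply g)
  have hDconv : Convex ℝ D := by
    intro x hx y hy a b ha hb hab g
    simp only [Pi.add_apply, Pi.smul_apply, smul_eq_mul]
    calc c' = a * c' + b * c' := by rw [← add_mul, hab, one_mul]
      _ ≤ _ := add_le_add (mul_le_mul_of_nonneg_left (hx g) ha)
        (mul_le_mul_of_nonneg_left (hy g) hb)
  have hdisj : Disjoint (T '' K) D := by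
    rw [Set.disjoint_left]
    rintro _ ⟨m, hm, rfl⟩ hD
    have := ht hm
    simp only [Set.mem_iUnion, Set.mem_ofPred_eq] at this
    obtain ⟨g, hg, hlt⟩ := this
    exact absurd (hD ⟨g, hg⟩) (not_le.2 hlt)
  obtain ⟨f, u, v, hu, huv, hv⟩ := geometric_hahn_banach_compact_closed hconv hcomp hDconv hDc hdisj
  -- coordinates of f
  let α : t → ℝ := fun g => f (Pi.single g 1)
  have hf : ∀ y : t → ℝ, f y = ∑ g, α g * y g := by
    intro y
    conv_lhs => rw [← Finset.univ_sum_single y]
    rw [map_sum]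
    refine Finset.sum_congr rfl fun g _ => ?_
    have : (Pi.single g (y g) : t → ℝ) = (y g) • Pi.single g 1 := by
      rw [← Pi.single_smul, smul_eq_mul, mul_one]
    rw [this, map_smul, smul_eq_mul, mul_comm]
  have hα : ∀ g, 0 ≤ α g := by
    intro g
    by_contra hneg
    push Not at hneg
    -- move far in direction g
    have hbig : ∀ s : ℝ, 0 ≤ s → v < f ((fun _ => c') + s • Pi.single g 1) := by
      intro s hs
      apply hv
      intro h
      simp only [Pi.add_apply, Pi.smul_apply, smul_eq_mul]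
      have : 0 ≤ s * (Pi.single g (1 : ℝ) : t → ℝ) h := by
        apply mul_nonneg hs
        by_cases hh : h = g
        · subst hh; simp
        · simp [Pi.single_eq_of_ne hh]
      linarith
    set w := f (fun _ => c') with hw
    have h0 := hbig 0 le_rfl
    have h1 := hbig ((w - v) / (-(α g)) + 1) (by
      have : 0 < w - v := by simpa using sub_pos.2 h0
      have h2 : 0 < -(α g) := by linarith
      positivity)
    rw [map_add, map_smul, smul_eq_mul] at h1
    have h3 : ((w - v) / (-(α g)) + 1) * f (Pi.single g 1) = -(w - v) + α g := by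
      change ((w - v) / (-(α g)) + 1) * α g = _
      have : α g ≠ 0 := hneg.ne
      field_simp
    rw [h3] at h1
    linarith
  obtain ⟨k₀, hk₀⟩ := hK.2.1
  have hsum : 0 < ∑ g, α g := by
    rcases (Finset.sum_nonneg fun g (_ : g ∈ Finset.univ) => hα g).lt_or_eq with h | h
    · exact h
    · exfalso
      have hz : ∀ g, α g = 0 := by
        intro g
        exact (Finset.sum_eq_zero_iff_of_nonneg fun g _ => hα g).1 h.symm g (Finset.mem_univ g)
      have h1 := hu (T k₀) ⟨k₀, hk₀, rfl⟩
      have h2 := hv (fun _ => c') (fun _ => le_rfl)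
      rw [hf] at h1 h2
      simp only [hz, zero_mul, Finset.sum_const_zero] at h1 h2
      linarith
  set C := ∑ g, α g with hC
  have hkey : ∀ m ∈ K, ∑ g : t, (α g / C) * sh (g : G) m S < c := by
    intro m hm
    have h1 := hu (T m) ⟨m, hm, rfl⟩
    have h2 := hv (fun _ => c') (fun _ => le_rfl)
    rw [hf] at h1 h2
    rw [← Finset.sum_mul] at h2
    have h3 : ∑ g : t, (α g / C) * sh (g : G) m S = (∑ g, α g * T m g) / C := by
      rw [Finset.sum_div]
      refine Finset.sum_congr rfl fun g _ => ?_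
      simp only [T]
      ring
    rw [h3, div_lt_iff₀ hsum]
    have h4 : C * c' < C * c := mul_lt_mul_of_pos_left hc'2 hsum
    calc _ < u := h1
      _ < v := huv
      _ < C * c' := h2
      _ < C * c := h4
      _ = c * C := mul_comm _ _
  -- build the measure
  let W : G →₀ ℝ := Finsupp.onFinset t (fun g => if h : g ∈ t then α ⟨g, h⟩ / C else 0) (by
    intro g hg
    by_contra hgt
    simp [hgt] at hg)
  have hWs : ∀ (F : G → ℝ), ∑ g ∈ W.support, W g * F g = ∑ g : t, (α g / C) * F g := by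
    intro F
    have h1 : ∑ g ∈ W.support, W g * F g = ∑ g ∈ t, W g * F g := by
      apply Finset.sum_subset (Finsupp.support_onFinset_subset)
      intro g _ hg
      rw [Finsupp.notMem_support_iff.1 hg, zero_mul]
    rw [h1, ← Finset.sum_coe_sort t]
    refine Finset.sum_congr rfl fun g _ => ?_
    simp [W, Finsupp.onFinset_apply]
  refine ⟨⟨W, ?_, ?_⟩, fun m hm => ?_⟩
  · intro g
    by_cases hg : g ∈ t
    · simp only [W, Finsupp.onFinset_apply, hg, dif_pos]
      exact div_nonneg (hα _) hsum.le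
    · simp [W, Finsupp.onFinset_apply, hg]
  · have := hWs (fun _ => 1)
    simp only [mul_one] at this
    rw [this, ← Finset.sum_div, ← hC, div_self hsum.ne']
  · rw [hWs (fun g => sh g m S)]
    exact hkey m hm

/-- The level sets of the orbit map of a point of a minimal set are null for `is12`. -/
lemma is12_level (hK : Good K) (hmin : ∀ K', Good K' → K' ⊆ K → K' = K)
    {S : Set G} {m₀ x₀ : Set G → ℝ} (hm₀ : m₀ ∈ K) (hlow : ∀ m ∈ K, m₀ S ≤ m S) (hx₀ : x₀ ∈ K)
    {t : ℝ} (ht : m₀ S < t) {A : Set G} (hA : ∀ g ∈ A, t ≤ sh g x₀ S) : is12 A = 0 := by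
  classical
  apply is12_eq_zero
  intro ε hε
  have hpos : 0 < (t - m₀ S) * ε := mul_pos (sub_pos.2 ht) hε
  obtain ⟨μ, hμ⟩ := exists_finProb hK hmin hm₀ (c := m₀ S + (t - m₀ S) * ε) (S := S) (by linarith)
  refine ⟨μ, fun y => ?_⟩
  have hy : sh y⁻¹ x₀ ∈ K := hK.2.2.2.2 _ _ hx₀
  have h1 := hμ _ hy
  have h2 : ∑ g ∈ μ.weight.support, μ.weight g * (sh g (sh y⁻¹ x₀) S - m₀ S) < (t - m₀ S) * ε := by
    simp only [mul_sub]
    rw [Finset.sum_sub_distrib, ← Finset.sum_mul, μ.total, one_mul]
    linarith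
  have h3 : (t - m₀ S) * μ.mass ((fun x => x * y) '' A) ≤
      ∑ g ∈ μ.weight.support, μ.weight g * (sh g (sh y⁻¹ x₀) S - m₀ S) := by
    unfold FinProb.mass
    rw [Finset.mul_sum]
    calc ∑ g ∈ μ.weight.support with g ∈ (fun x => x * y) '' A, (t - m₀ S) * μ.weight g
        ≤ ∑ g ∈ μ.weight.support with g ∈ (fun x => x * y) '' A,
            μ.weight g * (sh g (sh y⁻¹ x₀) S - m₀ S) := by
          apply Finset.sum_le_sum
          intro g hg
          obtain ⟨a, ha, rfl⟩ := (Finset.mem_filter.1 hg).2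
          rw [sh_sh]
          have : a * y * y⁻¹ = a := by group
          simp only [this]
          rw [mul_comm]
          exact mul_le_mul_of_nonneg_left (by linarith [hA a ha]) (μ.nonneg _)
      _ ≤ _ := by
          apply Finset.sum_le_sum_of_subset_of_nonneg (Finset.filter_subset _ _)
          intro g _ _
          apply mul_nonneg (μ.nonneg _)
          have := hlow _ (hK.2.2.2.2 g _ hy)
          linarith
  have h4 : (t - m₀ S) * μ.mass ((fun x => x * y) '' A) < (t - m₀ S) * ε := lt_of_le_of_lt h3 h2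
  exact (lt_of_mul_lt_mul_left h4 (sub_pos.2 ht).le).le

end minimal

/-- Every non-amenable group splits into two disjoint sets with `is12` equal to zero. -/
theorem exists_null_partition (G : Type u) [Group G] (hG : ¬ Amenable G) :
    ∃ A : Set G, is12 A = 0 ∧ is12 Aᶜ = 0 := by
  classical
  obtain ⟨K, hK, hmin⟩ := exists_minimal_good (G := G)
  have hKc : IsCompact K := MM_isCompact.of_isClosed_subset hK.2.2.1 hK.1
  obtain ⟨x₀, hx₀⟩ := hK.2.1
  -- x₀ is not invariant
  have hex : ∃ g : G, ∃ S : Set G, sh g x₀ S ≠ x₀ S := by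
    by_contra hcon
    push Not at hcon
    apply hG
    refine ⟨⟨x₀, (hK.1 hx₀).1, (hK.1 hx₀).2.1, (hK.1 hx₀).2.2⟩, fun g A => ?_⟩
    have h := hcon g⁻¹ A
    simp only [sh] at h
    change x₀ _ = x₀ A
    rw [← h]
    congr 1
    ext x
    simp only [Set.mem_image, Set.mem_preimage]
    constructor
    · rintro ⟨a, ha, rfl⟩
      simpa using ha
    · intro hx
      exact ⟨g⁻¹ * x, hx, by simp⟩
  obtain ⟨g₀, S, hS⟩ := hex
  have hne : K.Nonempty := hK.2.1
  obtain ⟨a, ha, hamin⟩ := hKc.exists_isMinOn hne (continuous_apply S).continuousOn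
  obtain ⟨b, hb, hbmax⟩ := hKc.exists_isMaxOn hne (continuous_apply S).continuousOn
  have hamin' : ∀ m ∈ K, a S ≤ m S := fun m hm => hamin hm
  have hbmax' : ∀ m ∈ K, m S ≤ b S := fun m hm => hbmax hm
  have hab : a S < b S := by
    have h1 : sh g₀ x₀ ∈ K := hK.2.2.2.2 _ _ hx₀
    rcases lt_or_gt_of_ne hS with h | h
    · exact lt_of_le_of_lt (hamin' _ h1) (lt_of_lt_of_le h (hbmax' _ hx₀))
    · exact lt_of_le_of_lt (hamin' _ hx₀) (lt_of_lt_of_le h (hbmax' _ h1))
  set t := (a S + b S) / 2 with ht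
  refine ⟨{g | t ≤ sh g x₀ S}, ?_, ?_⟩
  · exact is12_level hK hmin ha hamin' hx₀ (by rw [ht]; linarith) fun g hg => hg
  · have hcompl : ∀ m ∈ K, m Sᶜ = 1 - m S := fun m hm => MM_compl (hK.1 hm) S
    refine is12_level (S := Sᶜ) (t := 1 - t) hK hmin hb ?_ hx₀ ?_ ?_
    · intro m hm
      rw [hcompl m hm, hcompl b hb]
      linarith [hbmax' m hm]
    · rw [hcompl b hb, ht]
      linarith
    · intro g hg
      have hg' : ¬ (t ≤ sh g x₀ S) := hg
      rw [hcompl _ (hK.2.2.2.2 g _ hx₀)]
      linarith [not_le.1 hg']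

end Pool.Agent.Helper77.Dens
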